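import Pool.Agent.W844.GP.Defs

set_option autoImplicit false

open Finset MeasureTheory ProbabilityTheory Filter Topology
open scoped ENNReal

namespace Pool.Agent.W347.GP

open Pool.Agent.W844.VG (V stp nm)
open Pool.Agent.W844.GP

variable {d : ℕ}

theorem wt_meas (l : List (V d)) : Measurable fun w : V d → ℝ => wt w l := by
  unfold wt
  induction l with
  | nil => simp
  | cons a l ih =>
    simp only [List.map_cons, List.sum_cons]
    exact (measurable_pi_apply a).add ih

theorem coord_lt (c : ℝ) (z : V d) : Measurable fun w : V d → ℝ => w z < c := by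
  rw [← measurableSet_setOf]
  exact measurableSet_lt (measurable_pi_apply z) measurable_const

theorem coord_le (c : ℝ) (z : V d) : Measurable fun w : V d → ℝ => c ≤ w z := by
  rw [← measurableSet_setOf]
  exact measurableSet_le measurable_const (measurable_pi_apply z)

theorem meas_le (p : List (V d) → Prop) (c : ℝ) :
    Measurable fun w : V d → ℝ => ∃ l, p l ∧ c ≤ wt w l := by
  refine Measurable.exists fun l => measurable_const.and ?_
  rw [← measurableSet_setOf]
  exact measurableSet_le measurable_const (wt_meas l)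

theorem meas_lt (p : List (V d) → Prop) (c : ℝ) :
    Measurable fun w : V d → ℝ => ∃ l, p l ∧ c < wt w l := by
  refine Measurable.exists fun l => measurable_const.and ?_
  rw [← measurableSet_setOf]
  exact measurableSet_lt measurable_const (wt_meas l)

/-- reachability in `n` steps -/
def Reach (K : ℝ) (w : V d → ℝ) (x : V d) : ℕ → V d → Prop
  | 0, y => x = y
  | n + 1, y => ∃ z, Reach K w x n z ∧ (w y < -K ∧ nm (y - z) ≤ 2)

theorem reach_iff (K : ℝ) (w : V d → ℝ) (x y : V d) :
    Relation.ReflTransGen (fun a b => b ∈ Cl K w ∧ nm (b - a) ≤ 2) x y ↔ ∃ n, Reach K w x n y := by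
  constructor
  · intro h
    induction h with
    | refl => exact ⟨0, rfl⟩
    | tail _ hbc ih =>
      obtain ⟨n, hn⟩ := ih
      exact ⟨n + 1, _, hn, hbc⟩
  · rintro ⟨n, hn⟩
    induction n generalizing y with
    | zero => cases hn; exact Relation.ReflTransGen.refl
    | succ n ih =>
      obtain ⟨z, hz, h⟩ := hn
      exact (ih z hz).tail h

theorem reach_meas (K : ℝ) (x : V d) (n : ℕ) (y : V d) :
    Measurable fun w : V d → ℝ => Reach K w x n y := by
  induction n generalizing y with
  | zero => exact measurable_const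
  | succ n ih =>
    refine Measurable.exists fun z => (ih z).and ((coord_lt _ _).and measurable_const)

theorem far_meas (K : ℝ) (x : V d) (k : ℕ) : Measurable fun w : V d → ℝ => Far K w x k := by
  have h : (fun w : V d → ℝ => Far K w x k) =
      fun w : V d → ℝ => ∃ y, (∃ n, Reach K w x n y) ∧ k ≤ nm (y - x) := by
    funext w
    unfold Far Hull
    simp only [Set.mem_ofPred_eq, Set.mem_singleton_iff, exists_eq_left, reach_iff]
  rw [h]
  exact Measurable.exists fun y => (Measurable.exists fun n => reach_meas K x n y).and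
    measurable_const

theorem con_meas (K : ℝ) (i : Fin d) (n : ℕ) (x y : V d) :
    Measurable fun w : V d → ℝ => Pool.Agent.W844.GP.Con K w i n x y := by
  unfold Pool.Agent.W844.GP.Con
  refine measurable_const.and (Measurable.exists fun l => measurable_const.and
    (measurable_const.and (Measurable.forall fun z => ?_)))
  exact Measurable.imp measurable_const
    (measurable_const.and (measurable_const.and (coord_le _ _)))

theorem yy_meas (i : Fin d) (L R : ℕ) (c : ℝ) : Measurable fun w : V d → ℝ => YY w i L R c := by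
  have h := meas_le (fun l : List (V d) => SB i l 0 (pt i R) ∧ l.length ≤ L * R) c
  have e : (fun w : V d → ℝ => YY w i L R c) =
      fun w : V d → ℝ => ∃ l, (SB i l 0 (pt i R) ∧ l.length ≤ L * R) ∧ c ≤ wt w l := by
    funext w
    unfold YY
    simp only [and_assoc]
  rw [e]
  exact h

theorem vv_meas (i : Fin d) (L : ℕ) (B : ℝ) (h : ℕ) : Measurable (VV (d := d) i L B h) := by
  apply measurable_of_Ioi
  intro c
  have e : VV (d := d) i L B h ⁻¹' Set.Ioi c =
      {w | ∃ q : ℚ, c < (q : ℝ) ∧ ((q : ℝ) ≤ 0 ∧ ((q : ℝ) ≤ -(B * h) ∨ YY w i L h q))} := by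
    ext w
    have hbdd : BddAbove {c : ℝ | c ≤ 0 ∧ (c ≤ -(B * h) ∨ YY w i L h c)} :=
      ⟨0, fun x hx => hx.1⟩
    have hne : {c : ℝ | c ≤ 0 ∧ (c ≤ -(B * h) ∨ YY w i L h c)}.Nonempty :=
      ⟨min 0 (-(B * h)), min_le_left _ _, Or.inl (min_le_right _ _)⟩
    rw [Set.mem_preimage, Set.mem_Ioi]
    unfold VV
    rw [lt_csSup_iff hbdd hne]
    constructor
    · rintro ⟨a, ⟨ha0, ha⟩, hca⟩
      obtain ⟨q, hq1, hq2⟩ := exists_rat_btwn hca
      refine ⟨q, hq1, hq2.le.trans ha0, ?_⟩
      rcases ha with ha | ha
      · exact Or.inl (hq2.le.trans ha)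
      · obtain ⟨l, h1, h2, h3⟩ := ha
        exact Or.inr ⟨l, h1, h2, hq2.le.trans h3⟩
    · rintro ⟨q, hq1, hq2⟩
      exact ⟨q, hq2, hq1⟩
  rw [e, measurableSet_setOf]
  exact Measurable.exists fun q => measurable_const.and
    (measurable_const.and (measurable_const.or (yy_meas i L h q)))

theorem meas : S_MEAS := by
  intro d
  refine ⟨fun p c => ?_, fun p c => ?_, fun K x k => ?_, fun K i n x y => ?_, fun i L R c => ?_,
    vv_meas, fun p K x => ?_⟩
  · rw [measurableSet_setOf]; exact meas_le p c
  · rw [measurableSet_setOf]; exact meas_lt p c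
  · rw [measurableSet_setOf]; exact far_meas K x k
  · rw [measurableSet_setOf]; exact con_meas K i n x y
  · rw [measurableSet_setOf]; exact yy_meas i L R c
  · unfold GG
    refine Measurable.ennreal_tsum fun k => ?_
    refine Measurable.ite ?_ measurable_const measurable_const
    rw [measurableSet_setOf]; exact far_meas K x k

end Pool.Agent.W347.GP
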