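import Pool.Agent.W347.GP.Meas

set_option autoImplicit false

open Finset MeasureTheory ProbabilityTheory Filter Topology
open scoped ENNReal

namespace Pool.Agent.W347.GP

open Pool.Agent.W844.VG (V stp nm)
open Pool.Agent.W844.GP

variable {d : ℕ}

theorem u (hP : S_PACK) (h2 : S_U2) (h3 : S_U3) : S_U := by
  intro d ν _ T hT hν hE
  exact h3 d ν T hT hν (h2 d ν T hT hν fun i => hP d ν i (hE i))

instance law_prob (ν : Measure ℝ) [IsProbabilityMeasure ν] (d : ℕ) :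
    IsProbabilityMeasure (law ν d) := by
  unfold law; infer_instance

theorem law_map (ν : Measure ℝ) [IsProbabilityMeasure ν] (d : ℕ) {f : ℝ → ℝ} (hf : Measurable f) :
    law (ν.map f) d = (law ν d).map fun w x => f (w x) := by
  unfold law
  exact (Measure.infinitePi_map_pi (μ := fun _ : V d => ν) (f := fun _ => f) fun _ => hf).symm

theorem Lo.mono {w : V d → ℝ} {n : ℕ} {a b : ℝ} (h : Lo w n a) (hab : b ≤ a) : Lo w n b := by
  obtain ⟨l, h1, h2, h3⟩ := h
  exact ⟨l, h1, h2, hab.trans h3⟩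

theorem YY.mono_L {w : V d → ℝ} {i : Fin d} {L L' R : ℕ} {c : ℝ} (h : YY w i L R c)
    (hL : L ≤ L') : YY w i L' R c := by
  obtain ⟨l, h1, h2, h3⟩ := h
  exact ⟨l, h1, h2.trans (Nat.mul_le_mul_right _ hL), h3⟩

theorem Hyp.mono_L {ν : Measure ℝ} [IsProbabilityMeasure ν] {i : Fin d} {T B : ℝ} {L L' : ℕ}
    (h : Hyp ν i T B L) (hL : L ≤ L') : Hyp ν i T B L' := by
  obtain ⟨h1, h2, h3, h4, h5, h6⟩ := h
  refine ⟨h1, h2, h3, h4, h5.trans hL, ?_⟩
  refine tendsto_of_tendsto_of_tendsto_of_le_of_le tendsto_const_nhds h6 (fun _ => zero_le) ?_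
  intro h
  exact measure_mono fun w hw hw' => hw (YY.mono_L hw' hL)

theorem wt_add (w : V d → ℝ) (c : ℝ) (l : List (V d)) :
    wt (fun x => w x + c) l = wt w l + c * l.length := by
  unfold wt
  induction l with
  | nil => simp
  | cons a l ih =>
    simp only [List.map_cons, List.sum_cons, ih, List.length_cons]
    push_cast
    ring

theorem Lo.shift {w : V d → ℝ} {c : ℝ} {n : ℕ} {a : ℝ} (h : Lo (fun x => w x + c) n a) :
    Lo w n (a - c * n) := by
  obtain ⟨l, h1, h2, h3⟩ := h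
  refine ⟨l, h1, h2, ?_⟩
  rw [wt_add, h1] at h3
  linarith

/-- from `S_CLBI` to an almost sure statement -/
theorem ae_Lo (hC : S_CLBI) {i : Fin d} {ν : Measure ℝ} [IsProbabilityMeasure ν] {T B : ℝ} {L : ℕ}
    (hH : Hyp ν i T B L) {ε b : ℝ} (hε : 0 < ε) (hf : ∃ᶠ h : ℕ in atTop, b ≤ 2 * (aa ν i L B h - ε)) :
    ∀ᵐ w ∂law ν d, ∀ᶠ n : ℕ in atTop, Lo w n (b * n) := by
  rw [ae_iff]
  have h0 : ∀ η : ℝ, 0 < η → law ν d {w | ¬ ∀ᶠ n : ℕ in atTop, Lo w n (b * n)} ≤
      ENNReal.ofReal η := by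
    intro η hη
    obtain ⟨h0, hh0⟩ := hC d i ν T B L hH ε η hε hη
    obtain ⟨h, hh, hb⟩ := (frequently_atTop.1 hf) h0
    refine le_trans (measure_mono ?_) (hh0 h hh)
    intro w hw hw'
    apply hw
    filter_upwards [hw'] with n hn
    exact Lo.mono hn (mul_le_mul_of_nonneg_right hb (Nat.cast_nonneg n))
  by_contra hne
  have hpos : 0 < law ν d {w | ¬ ∀ᶠ n : ℕ in atTop, Lo w n (b * n)} := pos_iff_ne_zero.2 hne
  have hfin : law ν d {w | ¬ ∀ᶠ n : ℕ in atTop, Lo w n (b * n)} ≠ ⊤ := measure_ne_top _ _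
  have h1 := h0 ((law ν d {w | ¬ ∀ᶠ n : ℕ in atTop, Lo w n (b * n)}).toReal / 2)
    (half_pos (ENNReal.toReal_pos hne hfin))
  have h2 := ENNReal.toReal_mono ENNReal.ofReal_ne_top h1
  have h3 := ENNReal.toReal_pos hne hfin
  rw [ENNReal.toReal_ofReal (by linarith)] at h2
  linarith

theorem l (h1 : S_L1) (h3 : S_T3) (hLD : S_LD) (hC : S_CLBI) : S_L := by
  intro d i hd ν _ T δ C hT hν hδ hf κ hκ
  obtain ⟨L0, δ', hδ', hf'⟩ := h1 d i hd ν (κ / 2) δ C (half_pos hκ) hδ hf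
  have hm : Measurable fun x : ℝ => x + κ / 2 := measurable_id.add_const _
  set ν' := ν.map fun x : ℝ => x + κ / 2 with hν'
  have hpr : IsProbabilityMeasure ν' := Measure.isProbabilityMeasure_map hm.aemeasurable
  have hlaw := law_map ν d hm
  have hmm : Measurable fun (w : V d → ℝ) (x : V d) => w x + κ / 2 :=
    measurable_pi_lambda _ fun x => (measurable_pi_apply x).add_const _
  have hν'T : ν' (Set.Ioi (T + κ / 2)) = 0 := by
    rw [hν', Measure.map_apply hm measurableSet_Ioi]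
    have : (fun x : ℝ => x + κ / 2) ⁻¹' Set.Ioi (T + κ / 2) = Set.Ioi T := by
      ext x; simp
    rw [this, hν]
  obtain ⟨B, L, hB, hL, ht⟩ := h3 d i hd ν'
  have hH : Hyp ν' i (T + κ / 2) B L := ⟨hd, by linarith, hν'T, hB, hL, ht⟩
  have hf2 : ∃ᶠ R : ℕ in atTop, ENNReal.ofReal δ' ≤ law ν' d {w | YY w i L0 R 0} := by
    refine hf'.mono fun R hR => ?_
    rw [hν', hlaw, Measure.map_apply hmm]
    · exact hR
    · exact measurableSet_setOf.2 (yy_meas i L0 R 0)
  obtain ⟨L', hLL', hf3⟩ := hLD d i ν' (T + κ / 2) B L hH L0 δ' hδ' hf2 (κ / 16) (by linarith)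
  have h4 := ae_Lo hC (Hyp.mono_L hH hLL') (b := -(κ / 4)) (ε := κ / 16) (by linarith)
    (hf3.mono fun h hh => by linarith)
  rw [hν', hlaw] at h4
  have h5 := ae_of_ae_map hmm.aemeasurable h4
  filter_upwards [h5] with w hw
  filter_upwards [hw] with n hn
  refine Lo.mono (Lo.shift hn) ?_
  have : 0 ≤ κ * n := by positivity
  linarith

theorem vv_le (i : Fin d) (L : ℕ) (B : ℝ) (h : ℕ) (w : V d → ℝ) : VV i L B h w ≤ 0 := by
  unfold VV
  refine csSup_le ⟨min 0 (-(B * h)), min_le_left _ _, Or.inl (min_le_right _ _)⟩ ?_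
  exact fun x hx => hx.1

theorem le_vv (i : Fin d) (L : ℕ) {B : ℝ} (hB : 0 ≤ B) (h : ℕ) (w : V d → ℝ) :
    -(B * h) ≤ VV i L B h w := by
  unfold VV
  refine le_csSup ⟨0, fun x hx => hx.1⟩ ⟨?_, Or.inl le_rfl⟩
  have : 0 ≤ B * h := by positivity
  linarith

theorem le_aa (ν : Measure ℝ) [IsProbabilityMeasure ν] (i : Fin d) (L : ℕ) {B : ℝ} (hB : 0 ≤ B)
    (h : ℕ) : -B ≤ aa ν i L B h := by
  unfold aa
  rcases Nat.eq_zero_or_pos h with h0 | h0
  · subst h0; simp [hB]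
  have hh : (0 : ℝ) < h := by exact_mod_cast h0
  rw [le_div_iff₀ hh]
  have hi : Integrable (VV i L B h) (law ν d) := by
    refine Integrable.of_bound (vv_meas i L B h).aestronglyMeasurable (B * h)
      (Eventually.of_forall fun w => ?_)
    rw [Real.norm_eq_abs, abs_le]
    exact ⟨le_vv i L hB h w, (vv_le i L B h w).trans (by positivity)⟩
  have h1 : ∫ _w, (-(B * h)) ∂law ν d ≤ ∫ w, VV i L B h w ∂law ν d :=
    integral_mono (integrable_const _) hi fun w => le_vv i L hB h w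
  rw [integral_const] at h1
  simp at h1
  linarith

theorem fin1 (h3 : S_T3) (hC : S_CLBI) : S_FIN1 := by
  intro d hd ν _ T hT
  let i : Fin d := ⟨0, by omega⟩
  obtain ⟨B, L, hB, hL, ht⟩ := h3 d i hd ν
  have hν : ν (Set.Ioi (max T 0)) = 0 := by
    refine le_antisymm (le_trans (measure_mono ?_) hT.le) zero_le
    exact Set.Ioi_subset_Ioi (le_max_left _ _)
  have hH : Hyp ν i (max T 0) B L := ⟨hd, le_max_right _ _, hν, hB, hL, ht⟩
  refine ⟨2 * (-B - 1), ae_Lo hC hH one_pos (Frequently.of_forall fun h => ?_)⟩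
  have := le_aa ν i L hB h
  linarith

end Pool.Agent.W347.GP
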